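import Mathlib
import Pool.Agent.H598R2.Count

/-!
The family of maximal tight sets of a maximal sparse subset.
-/

set_option autoImplicit false
set_option linter.unusedSectionVars false
set_option linter.unusedVariables false

namespace Pool.Agent.V11304.RP

open Pool.Agent.H598R2.Cnt

variable {V : Type} [DecidableEq V]

theorem sp_empty : Sp (∅ : Finset (Finset V)) := by
  intro X hX
  have : ins (∅ : Finset (Finset V)) X = 0 := by simp [ins]
  omega

/-- data of the family of maximal tight sets -/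
structure Fam (Γ I : Finset (Finset V)) (φ : Finset V → Finset V) (F : Finset (Finset V)) :
    Prop where
  maxl : Maxl Γ I
  pairs : Pairs Γ
  tight : ∀ X ∈ F, Tight I X
  mem : ∀ q ∈ Γ, φ q ∈ F ∧ q ⊆ φ q
  uniq : ∀ X ∈ F, ∀ q ∈ Γ, q ⊆ X → φ q = X
  big : ∀ X ∈ F, ∀ Z, Tight I Z → 2 ≤ (X ∩ Z).card → Z ⊆ X

theorem exists_fam {Γ I : Finset (Finset V)} (h : Maxl Γ I) (hΓ : Pairs Γ) :
    ∃ φ F, Fam Γ I φ F := by
  classical
  have hI := h.2.1
  have hex : ∀ p : Finset V, ∃ X, p ∈ Γ → (Tight I X ∧ p ⊆ X ∧ ∀ Y, Tight I Y → p ⊆ Y → Y ⊆ X) := by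
    intro p
    by_cases hp : p ∈ Γ
    · obtain ⟨X, hX⟩ := exists_largest hI (I.biUnion id)
        (fun q hq => Finset.subset_biUnion_of_mem id hq) (hΓ p hp) (h.exists_tight hΓ hp)
      exact ⟨X, fun _ => hX⟩
    · exact ⟨∅, fun hh => absurd hh hp⟩
  choose φ hφ using hex
  refine ⟨φ, Γ.image φ, h, hΓ, ?_, ?_, ?_, ?_⟩
  · intro X hX
    obtain ⟨q, hq, rfl⟩ := Finset.mem_image.1 hX
    exact (hφ q hq).1
  · intro q hq
    exact ⟨Finset.mem_image_of_mem _ hq, (hφ q hq).2.1⟩
  · intro X hX p hp hpX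
    obtain ⟨q, hq, rfl⟩ := Finset.mem_image.1 hX
    have h1 := hφ q hq
    have h2 := hφ p hp
    have h3 : φ q ⊆ φ p := h2.2.2 _ h1.1 hpX
    have h4 : φ p ⊆ φ q := h1.2.2 _ h2.1 (h1.2.1.trans h3)
    exact subset_antisymm h4 h3
  · intro X hX Z hZ hc
    obtain ⟨q, hq, rfl⟩ := Finset.mem_image.1 hX
    have h1 := hφ q hq
    have h2 := h1.1.union hI hZ hc
    have h3 := h1.2.2 _ h2 (h1.2.1.trans Finset.subset_union_left)
    exact Finset.subset_union_right.trans h3

variable {Γ I F : Finset (Finset V)} {φ : Finset V → Finset V}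

theorem Fam.two_le (h : Fam Γ I φ F) {X : Finset V} (hX : X ∈ F) : 2 ≤ X.card := (h.tight X hX).1

theorem Fam.ins_eq (h : Fam Γ I φ F) {X : Finset V} (hX : X ∈ F) : ins I X + 3 = 2 * X.card :=
  (h.tight X hX).2

/-- two members meet in at most one vertex -/
theorem Fam.inter_le (h : Fam Γ I φ F) {X Z : Finset V} (hX : X ∈ F) (hZ : Z ∈ F) (hne : X ≠ Z) :
    (X ∩ Z).card ≤ 1 := by
  by_contra hc
  push Not at hc
  have h1 := h.big X hX Z (h.tight Z hZ) hc
  have h2 := h.big Z hZ X (h.tight X hX) (by rw [Finset.inter_comm]; exact hc)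
  exact hne (subset_antisymm h2 h1)

theorem Fam.inter_unique (h : Fam Γ I φ F) {X Z : Finset V} (hX : X ∈ F) (hZ : Z ∈ F)
    {a b : V} (haX : a ∈ X) (haZ : a ∈ Z) (hbX : b ∈ X) (hbZ : b ∈ Z) (hab : a ≠ b) : X = Z := by
  by_contra hne
  have h1 := h.inter_le hX hZ hne
  have h2 : ({a, b} : Finset V) ⊆ X ∩ Z := by
    intro w hw
    simp only [Finset.mem_insert, Finset.mem_singleton] at hw
    rcases hw with rfl | rfl
    · exact Finset.mem_inter.2 ⟨haX, haZ⟩
    · exact Finset.mem_inter.2 ⟨hbX, hbZ⟩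
  have h3 := Finset.card_le_card h2
  rw [Finset.card_pair hab] at h3
  omega

/-- members of a subset of `Γ` are distributed over the family -/
theorem Fam.sum_ins (h : Fam Γ I φ F) {K : Finset (Finset V)} (hK : K ⊆ Γ) :
    K.card = ∑ X ∈ F, ins K X := by
  rw [Finset.card_eq_sum_card_fiberwise (f := φ) (t := F)
      (fun p hp => (h.mem p (hK hp)).1)]
  refine Finset.sum_congr rfl fun X hX => ?_
  unfold ins
  congr 1
  ext p
  simp only [Finset.mem_filter]
  constructor
  · rintro ⟨h1, rfl⟩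
    exact ⟨h1, (h.mem p (hK h1)).2⟩
  · rintro ⟨h1, h2⟩
    exact ⟨h1, h.uniq X hX p (hK h1) h2⟩

/-- no pair is inside two members -/
theorem Fam.disj (h : Fam Γ I φ F) {X Z : Finset V} (hX : X ∈ F) (hZ : Z ∈ F) (hne : X ≠ Z) :
    Disjoint (I.filter (· ⊆ X)) (I.filter (· ⊆ Z)) := by
  rw [Finset.disjoint_left]
  intro q hq hq'
  have h1 := Finset.mem_filter.1 hq
  have h2 := Finset.mem_filter.1 hq'
  have h3 := h.uniq X hX q (h.maxl.1 h1.1) h1.2
  have h4 := h.uniq Z hZ q (h.maxl.1 h1.1) h2.2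
  exact hne (h3.symm.trans h4)

/-- **Triangle lemma** -/
theorem Fam.triangle (h : Fam Γ I φ F) {X Y Z : Finset V} (hX : X ∈ F) (hY : Y ∈ F) (hZ : Z ∈ F)
    {a b d : V} (haX : a ∈ X) (haY : a ∈ Y) (hbX : b ∈ X) (hbZ : b ∈ Z) (hdY : d ∈ Y) (hdZ : d ∈ Z)
    (hab : a ≠ b) (had : a ≠ d) (hbd : b ≠ d) : X = Y ∨ X = Z ∨ Y = Z := by
  by_contra hcon
  push Not at hcon
  obtain ⟨hXY, hXZ, hYZ⟩ := hcon
  have e1 := h.inter_le hX hY hXY
  have e2 := h.inter_le hX hZ hXZ
  have e3 := h.inter_le hY hZ hYZ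
  set U := X ∪ Y ∪ Z with hU
  -- count of the union
  have c1 : ins I X + ins I Y + ins I Z ≤ ins I U := by
    unfold ins
    rw [← Finset.card_union_of_disjoint (h.disj hX hY hXY), ← Finset.card_union_of_disjoint]
    · apply Finset.card_le_card
      intro q hq
      simp only [Finset.mem_union, Finset.mem_filter] at hq ⊢
      rcases hq with (⟨h1, h2⟩ | ⟨h1, h2⟩) | ⟨h1, h2⟩
      · exact ⟨h1, h2.trans (Finset.subset_union_left.trans Finset.subset_union_left)⟩
      · exact ⟨h1, h2.trans (Finset.subset_union_right.trans Finset.subset_union_left)⟩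
      · exact ⟨h1, h2.trans Finset.subset_union_right⟩
    · rw [Finset.disjoint_union_left]
      exact ⟨h.disj hX hZ hXZ, h.disj hY hZ hYZ⟩
  have c2 : (X ∪ Y).card + 1 ≤ X.card + Y.card := by
    have h1 := Finset.card_union_add_card_inter X Y
    have h2 : 1 ≤ (X ∩ Y).card := Finset.card_pos.2 ⟨a, Finset.mem_inter.2 ⟨haX, haY⟩⟩
    omega
  have c3 : U.card + 2 ≤ (X ∪ Y).card + Z.card := by
    have h1 := Finset.card_union_add_card_inter (X ∪ Y) Z
    rw [← hU] at h1
    have h2 : ({b, d} : Finset V) ⊆ (X ∪ Y) ∩ Z := by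
      intro w hw
      simp only [Finset.mem_insert, Finset.mem_singleton] at hw
      rcases hw with rfl | rfl
      · exact Finset.mem_inter.2 ⟨Finset.mem_union_left _ hbX, hbZ⟩
      · exact Finset.mem_inter.2 ⟨Finset.mem_union_right _ hdY, hdZ⟩
    have h3 := Finset.card_le_card h2
    rw [Finset.card_pair hbd] at h3
    omega
  have hXU : X ⊆ U := Finset.subset_union_left.trans Finset.subset_union_left
  have hYU : Y ⊆ U := Finset.subset_union_right.trans Finset.subset_union_left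
  have t1 := h.ins_eq hX
  have t2 := h.ins_eq hY
  have t3 := h.ins_eq hZ
  have u2 : 2 ≤ U.card := (h.two_le hX).trans (Finset.card_le_card hXU)
  have u3 := h.maxl.2.1 U u2
  have ht : Tight I U := ⟨u2, by omega⟩
  have hUX := h.big X hX U ht (by
    rw [Finset.inter_eq_left.2 hXU]
    exact h.two_le hX)
  have hYX : Y ⊆ X := hYU.trans hUX
  rw [Finset.inter_eq_right.2 hYX] at e1
  have := h.two_le hY
  omega

/-- a vertex that is in no pair is in no member -/
theorem Fam.notMem (h : Fam Γ I φ F) {v : V} (hv : ∀ q ∈ Γ, v ∉ q) {X : Finset V} (hX : X ∈ F) :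
    v ∉ X := by
  intro hvX
  have h1 : ins I (X.erase v) = ins I X := by
    unfold ins
    congr 1
    ext e
    simp only [Finset.mem_filter]
    refine ⟨fun h => ⟨h.1, h.2.trans (Finset.erase_subset _ _)⟩,
      fun h' => ⟨h'.1, fun w hw => ?_⟩⟩
    refine Finset.mem_erase.2 ⟨?_, h'.2 hw⟩
    rintro rfl
    exact hv e (h.maxl.1 h'.1) hw
  have h4 := Finset.card_erase_add_one hvX
  have h5 := h.ins_eq hX
  have h6 := h.two_le hX
  by_cases h2 : 2 ≤ (X.erase v).card
  · have h3 := h.maxl.2.1 _ h2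
    omega
  · have h7 : ins I (X.erase v) = 0 := by
      unfold ins
      rw [Finset.card_eq_zero, Finset.filter_eq_empty_iff]
      intro q hq hqX
      have h8 := Finset.card_le_card hqX
      have h9 := h.pairs q (h.maxl.1 hq)
      omega
    omega

/-- **(3,6)-tight implies rigid in the plane** -/
theorem rig_of_tight36 {D : Finset (Finset V)} (hP : Pairs D) {Z : Finset V}
    (hZ : ∀ q ∈ D, q ⊆ Z) (hs : ∀ X : Finset V, 3 ≤ X.card → ins D X + 6 ≤ 3 * X.card)
    (hc : 3 * Z.card ≤ D.card + 6) (h3 : 3 ≤ Z.card) : Rig D Z := by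
  classical
  obtain ⟨I, -, hI⟩ := exists_maxl (Finset.empty_subset D) sp_empty
  obtain ⟨φ, F, h⟩ := exists_fam hI hP
  have hIZ : ∀ p ∈ I, p ⊆ Z := fun p hp => hZ p (hI.1 hp)
  refine ⟨I, hI.1, hI.2.1, hIZ, ?_⟩
  have hIc : ins I Z = I.card := by
    unfold ins
    rw [Finset.filter_true_of_mem hIZ]
  have hle := hI.2.1 Z (by omega)
  have e1 := h.sum_ins (subset_refl D)
  have e2 := h.sum_ins hI.1
  have e3 : ∀ X ∈ F, 2 * ins D X + 1 ≤ 3 * ins I X := by
    intro X hX
    have h1 := h.ins_eq hX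
    have h2 := h.two_le hX
    by_cases h4 : 3 ≤ X.card
    · have := hs X h4
      omega
    · have h5 : ins D X ≤ 1 := by
        unfold ins
        rw [Finset.card_le_one]
        intro p hp q hq
        have hp' := Finset.mem_filter.1 hp
        have hq' := Finset.mem_filter.1 hq
        have a1 := hP p hp'.1
        have a2 := hP q hq'.1
        rw [Finset.eq_of_subset_of_card_le hp'.2 (by omega),
          Finset.eq_of_subset_of_card_le hq'.2 (by omega)]
      omega
  have e4 : 2 * D.card + F.card ≤ 3 * I.card := by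
    rw [e2]
    nth_rewrite 1 [e1]
    rw [Finset.mul_sum, Finset.mul_sum, Finset.card_eq_sum_ones, ← Finset.sum_add_distrib]
    exact Finset.sum_le_sum e3
  have e5 : 0 < F.card := by
    have : 0 < D.card := by omega
    obtain ⟨q, hq⟩ := Finset.card_pos.1 this
    exact Finset.card_pos.2 ⟨_, (h.mem q hq).1⟩
  omega

end Pool.Agent.V11304.RP
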