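import Mathlib
import Pool.Agent.V11304.RP.Fam
import Pool.Agent.H632R2.Laman

/-!
Gluing of rigid sets, graphs with two poles, and extension of a Laman graph.
-/

set_option autoImplicit false
set_option linter.unusedSectionVars false
set_option linter.unusedVariables false

namespace Pool.Agent.V11304.RP

open Pool.Agent.H598R2.Cnt

section Basic

variable {V : Type} [DecidableEq V]

theorem exists_ge_of_rig {Γ J : Finset (Finset V)} {U : Finset V} (hΓ : Pairs Γ) (hR : Rig Γ U)
    (hU : 2 ≤ U.card) (hJ : Sp J) (hJm : ∀ q ∈ J, q ∈ Γ ∨ (q.card = 2 ∧ q ⊆ U)) :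
    ∃ I ⊆ Γ, Sp I ∧ J.card ≤ I.card := by
  classical
  obtain ⟨J0, hJ0Γ, hs, hin, hc⟩ := hR
  obtain ⟨I, hI0, hI⟩ := exists_maxl hJ0Γ hs
  have hXt : Tight I U := by
    refine ⟨hU, le_antisymm (hI.2.1 U hU) ?_⟩
    rw [← hc]
    refine Nat.add_le_add_right ?_ 3
    calc J0.card = ins J0 U := by
          unfold ins
          rw [Finset.filter_true_of_mem hin]
      _ ≤ ins I U := ins_mono hI0 U
  have hI' : Maxl (Γ ∪ J) I := by
    refine ⟨hI.1.trans Finset.subset_union_left, hI.2.1, fun p hp hpI => ?_⟩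
    rcases Finset.mem_union.1 hp with hp | hp
    · exact hI.2.2 p hp hpI
    · rcases hJm p hp with h1 | h1
      · exact hI.2.2 p h1 hpI
      · exact not_sp_of_tight hXt h1.2 hpI
  have hPJ : Pairs (Γ ∪ J) := by
    intro p hp
    rcases Finset.mem_union.1 hp with hp | hp
    · exact hΓ p hp
    · rcases hJm p hp with h1 | h1
      · exact hΓ p h1
      · exact h1.1
  exact ⟨I, hI.1, hI.2.1, hI'.card_le hPJ Finset.subset_union_right hJ⟩

theorem glue {Γ : Finset (Finset V)} (hΓ : Pairs Γ) {A B : Finset V} (hA : Rig Γ A) (hB : Rig Γ B)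
    {x y : V} (hxy : x ≠ y) (hxA : x ∈ A) (hyA : y ∈ A) (hxB : x ∈ B) (hyB : y ∈ B) :
    Rig Γ (A ∪ B) := by
  classical
  set Γ0 := Γ.filter (· ⊆ A ∪ B) with hΓ0
  have hP0 : Pairs Γ0 := fun p hp => hΓ p (Finset.mem_filter.1 hp).1
  have hA0 : Rig Γ0 A := by
    obtain ⟨I, h1, h2, h3, h4⟩ := hA
    exact ⟨I, fun q hq => Finset.mem_filter.2 ⟨h1 hq, (h3 q hq).trans Finset.subset_union_left⟩,
      h2, h3, h4⟩
  have hB0 : Rig Γ0 B := by
    obtain ⟨I, h1, h2, h3, h4⟩ := hB
    exact ⟨I, fun q hq => Finset.mem_filter.2 ⟨h1 hq, (h3 q hq).trans Finset.subset_union_right⟩,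
      h2, h3, h4⟩
  let Δ : Finset V → Finset (Finset V) := fun T =>
    T.image (fun v => ({v, x} : Finset V)) ∪ T.image (fun v => ({v, y} : Finset V))
  have hΔ : ∀ T : Finset V, Disjoint T A → T ⊆ B → ∀ e ∈ Δ T, e.card = 2 ∧ e ⊆ B := by
    intro T hT hTB e he
    rcases Finset.mem_union.1 he with he | he
    · obtain ⟨v, hv, rfl⟩ := Finset.mem_image.1 he
      have hvx : v ≠ x := by
        rintro rfl
        exact Finset.disjoint_left.1 hT hv hxA
      refine ⟨Finset.card_pair hvx, ?_⟩
      intro w hw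
      simp only [Finset.mem_insert, Finset.mem_singleton] at hw
      rcases hw with rfl | rfl
      · exact hTB hv
      · exact hxB
    · obtain ⟨v, hv, rfl⟩ := Finset.mem_image.1 he
      have hvy : v ≠ y := by
        rintro rfl
        exact Finset.disjoint_left.1 hT hv hyA
      refine ⟨Finset.card_pair hvy, ?_⟩
      intro w hw
      simp only [Finset.mem_insert, Finset.mem_singleton] at hw
      rcases hw with rfl | rfl
      · exact hTB hv
      · exact hyB
  have claim : ∀ T : Finset V, Disjoint T A → T ⊆ B → Rig (Γ0 ∪ Δ T) (A ∪ T) := by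
    intro T
    induction T using Finset.induction_on with
    | empty =>
      intro _ _
      rw [Finset.union_empty]
      exact hA0.mono Finset.subset_union_left
    | insert v T hvT ih =>
      intro hT hTB
      rw [Finset.disjoint_insert_left] at hT
      have h1 := ih hT.2 ((Finset.subset_insert _ _).trans hTB)
      rw [Finset.union_insert]
      have hsub : Γ0 ∪ Δ T ⊆ Γ0 ∪ Δ (insert v T) := by
        apply Finset.union_subset_union_right
        apply Finset.union_subset_union
        · exact Finset.image_subset_image (Finset.subset_insert _ _)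
        · exact Finset.image_subset_image (Finset.subset_insert _ _)
      refine Rig.extend ?_ (h1.mono hsub) ?_ (Finset.mem_union_left _ hxA)
        (Finset.mem_union_left _ hyA) hxy ?_ ?_
      · intro e he
        rcases Finset.mem_union.1 he with he | he
        · exact hP0 e he
        · exact (hΔ (insert v T) (Finset.disjoint_insert_left.2 hT) hTB e he).1
      · rw [Finset.mem_union]
        push Not
        exact ⟨hT.1, hvT⟩
      · exact Finset.mem_union_right _ (Finset.mem_union_left _
          (Finset.mem_image.2 ⟨v, Finset.mem_insert_self _ _, rfl⟩))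
      · exact Finset.mem_union_right _ (Finset.mem_union_right _
          (Finset.mem_image.2 ⟨v, Finset.mem_insert_self _ _, rfl⟩))
  have h2 := claim (B \ A) Finset.sdiff_disjoint Finset.sdiff_subset
  rw [Finset.union_sdiff_self_eq_union] at h2
  have h3 : Rig Γ0 (A ∪ B) := by
    refine rig_of_rig_union hP0 (fun p hp => (Finset.mem_filter.1 hp).2) ?_ h2
    intro e he
    have h4 := hΔ (B \ A) Finset.sdiff_disjoint Finset.sdiff_subset e he
    exact ⟨h4.1, h4.2.trans Finset.subset_union_right, B, hB0, h4.2⟩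
  exact h3.mono (Finset.filter_subset _ _)

/-- the Laman graph on `{x, y} ∪ D` where all vertices of `D` are joined to `x` and `y` -/
def pole (x y : V) (D : Finset V) : Finset (Finset V) :=
  insert {x, y} (D.image (fun v => ({v, x} : Finset V)) ∪ D.image (fun v => ({v, y} : Finset V)))

variable {x y : V} {D X : Finset V}

theorem mem_pole {q : Finset V} : q ∈ pole x y D ↔ q = {x, y} ∨ (∃ v ∈ D, q = {v, x}) ∨
    (∃ v ∈ D, q = {v, y}) := by
  unfold pole
  simp only [Finset.mem_insert, Finset.mem_union, Finset.mem_image]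
  constructor
  · rintro (h | ⟨v, hv, h⟩ | ⟨v, hv, h⟩)
    · exact Or.inl h
    · exact Or.inr (Or.inl ⟨v, hv, h.symm⟩)
    · exact Or.inr (Or.inr ⟨v, hv, h.symm⟩)
  · rintro (h | ⟨v, hv, h⟩ | ⟨v, hv, h⟩)
    · exact Or.inl h
    · exact Or.inr (Or.inl ⟨v, hv, h.symm⟩)
    · exact Or.inr (Or.inr ⟨v, hv, h.symm⟩)

theorem pole_pair (hxy : x ≠ y) (hx : x ∉ D) (hy : y ∉ D) {q : Finset V} (hq : q ∈ pole x y D) :
    q.card = 2 ∧ q ⊆ insert y (insert x D) := by
  rcases mem_pole.1 hq with rfl | ⟨v, hv, rfl⟩ | ⟨v, hv, rfl⟩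
  · refine ⟨Finset.card_pair hxy, ?_⟩
    intro w hw
    simp only [Finset.mem_insert, Finset.mem_singleton] at hw ⊢
    tauto
  · refine ⟨Finset.card_pair (fun h => hx (h ▸ hv)), ?_⟩
    intro w hw
    simp only [Finset.mem_insert, Finset.mem_singleton] at hw ⊢
    rcases hw with rfl | rfl
    · exact Or.inr (Or.inr hv)
    · exact Or.inr (Or.inl rfl)
  · refine ⟨Finset.card_pair (fun h => hy (h ▸ hv)), ?_⟩
    intro w hw
    simp only [Finset.mem_insert, Finset.mem_singleton] at hw ⊢
    rcases hw with rfl | rfl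
    · exact Or.inr (Or.inr hv)
    · exact Or.inl rfl

theorem pole_card (hxy : x ≠ y) (hx : x ∉ D) (hy : y ∉ D) :
    (pole x y D).card = 2 * D.card + 1 := by
  unfold pole
  rw [Finset.card_insert_of_notMem, Finset.card_union_of_disjoint, Finset.card_image_of_injOn,
    Finset.card_image_of_injOn, two_mul]
  · intro a ha b hb hab
    have h1 : a ∈ ({b, y} : Finset V) := by
      rw [← show ({a, y} : Finset V) = {b, y} from hab]
      simp
    simp only [Finset.mem_insert, Finset.mem_singleton] at h1
    rcases h1 with h1 | rfl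
    · exact h1
    · exact absurd ha hy
  · intro a ha b hb hab
    have h1 : a ∈ ({b, x} : Finset V) := by
      rw [← show ({a, x} : Finset V) = {b, x} from hab]
      simp
    simp only [Finset.mem_insert, Finset.mem_singleton] at h1
    rcases h1 with h1 | rfl
    · exact h1
    · exact absurd ha hx
  · rw [Finset.disjoint_left]
    intro q hq hq'
    obtain ⟨v, hv, rfl⟩ := Finset.mem_image.1 hq
    obtain ⟨w, hw, h⟩ := Finset.mem_image.1 hq'
    have h1 : x ∈ ({w, y} : Finset V) := by
      rw [h]
      simp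
    simp only [Finset.mem_insert, Finset.mem_singleton] at h1
    rcases h1 with rfl | h1
    · exact hx hw
    · exact hxy h1
  · intro hq
    rcases Finset.mem_union.1 hq with hq | hq
    · obtain ⟨v, hv, h⟩ := Finset.mem_image.1 hq
      have h1 : v ∈ ({x, y} : Finset V) := by
        rw [← h]
        simp
      simp only [Finset.mem_insert, Finset.mem_singleton] at h1
      rcases h1 with rfl | rfl
      · exact hx hv
      · exact hy hv
    · obtain ⟨v, hv, h⟩ := Finset.mem_image.1 hq
      have h1 : v ∈ ({x, y} : Finset V) := by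
        rw [← h]
        simp
      simp only [Finset.mem_insert, Finset.mem_singleton] at h1
      rcases h1 with rfl | rfl
      · exact hx hv
      · exact hy hv

theorem pole_both : ins (pole x y D) X ≤ 2 * (D ∩ X).card + 1 := by
  unfold ins
  have h1 : (pole x y D).filter (· ⊆ X) ⊆ insert {x, y}
      ((D ∩ X).image (fun v => ({v, x} : Finset V)) ∪
        (D ∩ X).image (fun v => ({v, y} : Finset V))) := by
    intro q hq
    obtain ⟨h1, h2⟩ := Finset.mem_filter.1 hq
    simp only [Finset.mem_insert, Finset.mem_union, Finset.mem_image, Finset.mem_inter]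
    rcases mem_pole.1 h1 with rfl | ⟨v, hv, rfl⟩ | ⟨v, hv, rfl⟩
    · exact Or.inl rfl
    · exact Or.inr (Or.inl ⟨v, ⟨hv, h2 (by simp)⟩, rfl⟩)
    · exact Or.inr (Or.inr ⟨v, ⟨hv, h2 (by simp)⟩, rfl⟩)
  have h2 := Finset.card_le_card h1
  have h3 := Finset.card_insert_le ({x, y} : Finset V)
    ((D ∩ X).image (fun v => ({v, x} : Finset V)) ∪
        (D ∩ X).image (fun v => ({v, y} : Finset V)))
  have h4 := Finset.card_union_le ((D ∩ X).image (fun v => ({v, x} : Finset V)))
        ((D ∩ X).image (fun v => ({v, y} : Finset V)))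
  have h5 : ((D ∩ X).image (fun v => ({v, x} : Finset V))).card ≤ (D ∩ X).card :=
    Finset.card_image_le
  have h6 : ((D ∩ X).image (fun v => ({v, y} : Finset V))).card ≤ (D ∩ X).card :=
    Finset.card_image_le
  omega

theorem pole_left (hy : y ∉ X) : ins (pole x y D) X ≤ (D ∩ X).card := by
  unfold ins
  have h1 : (pole x y D).filter (· ⊆ X) ⊆
      (D ∩ X).image (fun v => ({v, x} : Finset V)) := by
    intro q hq
    obtain ⟨h1, h2⟩ := Finset.mem_filter.1 hq
    simp only [Finset.mem_image, Finset.mem_inter]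
    rcases mem_pole.1 h1 with rfl | ⟨v, hv, rfl⟩ | ⟨v, hv, rfl⟩
    · exact absurd (h2 (by simp)) hy
    · exact ⟨v, ⟨hv, h2 (by simp)⟩, rfl⟩
    · exact absurd (h2 (by simp)) hy
  exact (Finset.card_le_card h1).trans Finset.card_image_le

theorem pole_right (hx : x ∉ X) : ins (pole x y D) X ≤ (D ∩ X).card := by
  unfold ins
  have h1 : (pole x y D).filter (· ⊆ X) ⊆
      (D ∩ X).image (fun v => ({v, y} : Finset V)) := by
    intro q hq
    obtain ⟨h1, h2⟩ := Finset.mem_filter.1 hq
    simp only [Finset.mem_image, Finset.mem_inter]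
    rcases mem_pole.1 h1 with rfl | ⟨v, hv, rfl⟩ | ⟨v, hv, rfl⟩
    · exact absurd (h2 (by simp)) hx
    · exact absurd (h2 (by simp)) hx
    · exact ⟨v, ⟨hv, h2 (by simp)⟩, rfl⟩
  exact (Finset.card_le_card h1).trans Finset.card_image_le

theorem pole_none (hx : x ∉ X) (hy : y ∉ X) : ins (pole x y D) X = 0 := by
  unfold ins
  rw [Finset.card_eq_zero, Finset.filter_eq_empty_iff]
  intro q hq hqX
  rcases mem_pole.1 hq with rfl | ⟨v, hv, rfl⟩ | ⟨v, hv, rfl⟩
  · exact hx (hqX (by simp))
  · exact hx (hqX (by simp))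
  · exact hy (hqX (by simp))

theorem card_inter_add {a : V} (ha : a ∉ D) (haX : a ∈ X) : (D ∩ X).card + 1 ≤ X.card := by
  have h1 : D ∩ X ⊆ X.erase a := by
    intro w hw
    obtain ⟨h1, h2⟩ := Finset.mem_inter.1 hw
    exact Finset.mem_erase.2 ⟨fun h => ha (h ▸ h1), h2⟩
  have h2 := Finset.card_le_card h1
  have h3 := Finset.card_erase_add_one haX
  omega

theorem card_inter_add_two {a b : V} (hab : a ≠ b) (ha : a ∉ D) (hb : b ∉ D) (haX : a ∈ X)
    (hbX : b ∈ X) : (D ∩ X).card + 2 ≤ X.card := by
  have h1 : D ∩ X ⊆ (X.erase a).erase b := by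
    intro w hw
    obtain ⟨h1, h2⟩ := Finset.mem_inter.1 hw
    exact Finset.mem_erase.2 ⟨fun h => hb (h ▸ h1), Finset.mem_erase.2 ⟨fun h => ha (h ▸ h1), h2⟩⟩
  have h2 := Finset.card_le_card h1
  have h3 := Finset.card_erase_add_one haX
  have h4 := Finset.card_erase_add_one (Finset.mem_erase.2 ⟨hab.symm, hbX⟩)
  omega

theorem sp_pole (hxy : x ≠ y) (hx : x ∉ D) (hy : y ∉ D) : Sp (pole x y D) := by
  intro X hX
  by_cases hxX : x ∈ X
  · by_cases hyX : y ∈ X
    · have h1 := pole_both (x := x) (y := y) (D := D) (X := X)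
      have h2 := card_inter_add_two hxy hx hy hxX hyX
      omega
    · have h1 := pole_left (x := x) (D := D) hyX
      have h2 := card_inter_add hx hxX
      omega
  · by_cases hyX : y ∈ X
    · have h1 := pole_right (y := y) (D := D) hxX
      have h2 := card_inter_add hy hyX
      omega
    · have h1 := pole_none (D := D) hxX hyX
      omega

theorem ins_union_le (I J : Finset (Finset V)) (X : Finset V) :
    ins (I ∪ J) X ≤ ins I X + ins J X := by
  unfold ins
  rw [Finset.filter_union]
  exact Finset.card_union_le _ _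

theorem ins_small {I : Finset (Finset V)} (hI : Pairs I) {X : Finset V} (hX : X.card ≤ 1) :
    ins I X = 0 := by
  unfold ins
  rw [Finset.card_eq_zero, Finset.filter_eq_empty_iff]
  intro q hq hqX
  have h1 := Finset.card_le_card hqX
  have h2 := hI q hq
  omega

end Basic

section LA

open Pool.Agent.H632R2.Laman Module

variable {V : Type} [Fintype V] [DecidableEq V]

theorem rv_sum (p : V → Fin 2 → ℝ) {q : Finset V} (hq : q.card = 2) : ∑ v, rv p q v = 0 := by
  obtain ⟨a, b, hab, rfl⟩ := Finset.card_eq_two.1 hq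
  simp only [rv_pair p hab]
  rw [Finset.sum_eq_add a b hab]
  · rw [if_pos rfl, if_neg hab.symm, if_pos rfl]
    abel
  · intro c _ hc
    rw [if_neg hc.1, if_neg hc.2]
  · intro h; exact absurd (Finset.mem_univ _) h
  · intro h; exact absurd (Finset.mem_univ _) h

theorem finrank_span_rows {z : V → Fin 2 → ℝ} {I : Finset (Finset V)}
    (hI : LinearIndepOn ℝ (rv z) (I : Set (Finset V))) :
    finrank ℝ (Submodule.span ℝ (rv z '' (I : Set (Finset V)))) = I.card := by
  have h3 := finrank_span_set_eq_card (R := ℝ) (s := rv z '' (I : Set (Finset V))) hI.id_image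
  rw [h3, Set.toFinset_image, Finset.toFinset_coe, Finset.card_image_of_injOn hI.injOn]

/-- extension of `L` (inside `U`) by most of `I`, when `I` touches `U \ {x}` only in `A` -/
theorem ext_la {L I : Finset (Finset V)} (hL : Pairs L) (hI : Pairs I) (sL : Sp L) (sI : Sp I)
    {U A : Finset V} {x : V} (hLU : ∀ q ∈ L, q ⊆ U)
    (hA : ∀ q ∈ I, ∀ v ∈ q, v ∈ U → v ≠ x → v ∈ A) :
    ∃ B ⊆ I, I.card ≤ B.card + 2 * A.card ∧ Disjoint L B ∧ Sp (L ∪ B) := by
  classical
  obtain ⟨z, hz⟩ := exists_gen V
  have iL := indep_gen_of_sp hz hL sL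
  have iI := indep_gen_of_sp hz hI sI
  set SL := Submodule.span ℝ (rv z '' (L : Set (Finset V))) with hSL
  set SI := Submodule.span ℝ (rv z '' (I : Set (Finset V))) with hSI
  -- the intersection is small
  let ρ : (V → Fin 2 → ℝ) →ₗ[ℝ] (A → Fin 2 → ℝ) := LinearMap.funLeft ℝ (Fin 2 → ℝ) Subtype.val
  have hsupL : ∀ w ∈ SL, ∀ v ∉ U, w v = 0 := by
    intro w hw v hv
    refine Submodule.span_induction (p := fun w _ => w v = 0) ?_ rfl ?_ ?_ hw
    · rintro _ ⟨q, hq, rfl⟩
      exact rv_of_notMem z (fun h => hv (hLU q hq h))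
    · intro a b _ _ ha hb
      rw [Pi.add_apply, ha, hb, add_zero]
    · intro r a _ ha
      rw [Pi.smul_apply, ha, smul_zero]
  have hsumL : ∀ w ∈ SL, ∑ v, w v = 0 := by
    intro w hw
    refine Submodule.span_induction (p := fun w _ => ∑ v, w v = 0) ?_ (by simp) ?_ ?_ hw
    · rintro _ ⟨q, hq, rfl⟩
      exact rv_sum z (hL q hq)
    · intro a b _ _ ha hb
      simp only [Pi.add_apply, Finset.sum_add_distrib, ha, hb, add_zero]
    · intro r a _ ha
      simp only [Pi.smul_apply, ← Finset.smul_sum, ha, smul_zero]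
  have hsupI : ∀ w ∈ SI, ∀ v ∈ U, v ≠ x → v ∉ A → w v = 0 := by
    intro w hw v hv hvx hvA
    refine Submodule.span_induction (p := fun w _ => w v = 0) ?_ rfl ?_ ?_ hw
    · rintro _ ⟨q, hq, rfl⟩
      exact rv_of_notMem z (fun h => hvA (hA q hq v h hv hvx))
    · intro a b _ _ ha hb
      rw [Pi.add_apply, ha, hb, add_zero]
    · intro r a _ ha
      rw [Pi.smul_apply, ha, smul_zero]
  have hinj : Function.Injective (ρ.domRestrict (SL ⊓ SI)) := by
    rw [← LinearMap.ker_eq_bot, LinearMap.ker_eq_bot']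
    rintro ⟨w, hwL, hwI⟩ hw0
    have h0 : ∀ v, v ≠ x → w v = 0 := by
      intro v hvx
      by_cases hvU : v ∈ U
      · by_cases hvA : v ∈ A
        · exact congrFun hw0 ⟨v, hvA⟩
        · exact hsupI w hwI v hvU hvx hvA
      · exact hsupL w hwL v hvU
    have h1 := hsumL w hwL
    rw [Finset.sum_eq_single x (fun v _ hv => h0 v hv)
      (fun h => absurd (Finset.mem_univ _) h)] at h1
    apply Subtype.ext
    funext v
    by_cases hv : v = x
    · subst hv; exact h1
    · exact h0 v hv
  have hdim : finrank ℝ (SL ⊓ SI : Submodule ℝ (V → Fin 2 → ℝ)) ≤ 2 * A.card := by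
    have h1 := LinearMap.finrank_le_finrank_of_injective hinj
    rw [Module.finrank_pi_fintype] at h1
    simp only [Module.finrank_fintype_fun_eq_card, Fintype.card_fin, Finset.sum_const,
      Finset.card_univ, Fintype.card_coe, smul_eq_mul] at h1
    omega
  have hsup := Submodule.finrank_sup_add_finrank_inf_eq SL SI
  rw [finrank_span_rows iL, finrank_span_rows iI] at hsup
  obtain ⟨B, hB1, hB2, hB3, hB4⟩ := exists_linearIndepOn_extension (K := ℝ) iL
    (show (L : Set (Finset V)) ⊆ ((L ∪ I : Finset (Finset V)) : Set (Finset V)) by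
      rw [Finset.coe_union]; exact Set.subset_union_left)
  have hspan : Submodule.span ℝ (rv z '' B) = SL ⊔ SI := by
    rw [hSL, hSI, ← Submodule.span_union, ← Set.image_union, ← Finset.coe_union]
    exact le_antisymm (Submodule.span_mono (Set.image_mono hB1)) (Submodule.span_le.2 hB3)
  have hfin : B.Finite := (Finset.finite_toSet (L ∪ I)).subset hB1
  lift B to Finset (Finset V) using hfin
  have hBs : B ⊆ L ∪ I := by exact_mod_cast hB1
  have hLB : L ⊆ B := by exact_mod_cast hB2
  have hPB : Pairs B := by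
    intro q hq
    rcases Finset.mem_union.1 (hBs hq) with h | h
    · exact hL q h
    · exact hI q h
  have hBc := finrank_span_rows hB4
  rw [hspan] at hBc
  refine ⟨B \ L, ?_, ?_, Finset.disjoint_sdiff, ?_⟩
  · intro q hq
    obtain ⟨h1, h2⟩ := Finset.mem_sdiff.1 hq
    rcases Finset.mem_union.1 (hBs h1) with h | h
    · exact absurd h h2
    · exact h
  · have h1 := Finset.card_sdiff_add_card_eq_card hLB
    omega
  · rw [Finset.union_sdiff_of_subset hLB]
    exact sp_of_indep hPB hB4

/-- extension relative to the set `insert x D` -/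
theorem exists_ext {I : Finset (Finset V)} (hI : Pairs I) (sI : Sp I) {D A : Finset V} {x : V}
    (hx : x ∉ D) (hA : ∀ q ∈ I, ∀ v ∈ q, v ∈ D → v ∈ A) :
    ∃ B ⊆ I, I.card ≤ B.card + 2 * A.card ∧ Sp B ∧
      ∀ Z : Finset V, x ∈ Z → ins B Z + 2 * (D ∩ Z).card + 2 ≤ 2 * Z.card := by
  classical
  rcases D.eq_empty_or_nonempty with rfl | ⟨d, hd⟩
  · refine ⟨I, subset_rfl, by omega, sI, ?_⟩
    intro Z hZ
    rw [Finset.empty_inter, Finset.card_empty]
    have h0 : 0 < Z.card := Finset.card_pos.2 ⟨x, hZ⟩
    by_cases h : 2 ≤ Z.card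
    · have := sI Z h
      omega
    · have := ins_small hI (X := Z) (by omega)
      omega
  · have hxd : x ≠ d := fun h => hx (h ▸ hd)
    have hx' : x ∉ D.erase d := fun h => hx (Finset.mem_of_mem_erase h)
    have hd' : d ∉ D.erase d := Finset.notMem_erase d D
    have hU : insert d (insert x (D.erase d)) = insert x D := by
      rw [Finset.insert_comm, Finset.insert_erase hd]
    obtain ⟨B, h1, h2, h3, h4⟩ := ext_la (L := pole x d (D.erase d)) (I := I)
      (fun q hq => (pole_pair hxd hx' hd' hq).1) hI (sp_pole hxd hx' hd') sI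
      (U := insert x D) (A := A) (x := x)
      (fun q hq => hU ▸ (pole_pair hxd hx' hd' hq).2) (by
        intro q hq v hv hvU hvx
        rcases Finset.mem_insert.1 hvU with h | h
        · exact absurd h hvx
        · exact hA q hq v hv h)
    refine ⟨B, h1, h2, h4.mono Finset.subset_union_right, ?_⟩
    intro Z hZ
    have hc := pole_card hxd hx' hd'
    have hDc := Finset.card_erase_add_one hd
    have c1 : (D ∪ Z).card + (D ∩ Z).card = D.card + Z.card := Finset.card_union_add_card_inter _ _
    have hxU : insert x D ⊆ D ∪ Z := by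
      intro w hw
      rcases Finset.mem_insert.1 hw with rfl | h
      · exact Finset.mem_union_right _ hZ
      · exact Finset.mem_union_left _ h
    have hDZ : 2 ≤ (D ∪ Z).card := by
      have h5 := Finset.card_le_card hxU
      rw [Finset.card_insert_of_notMem hx] at h5
      have : 0 < D.card := Finset.card_pos.2 ⟨d, hd⟩
      omega
    have h5 := h4 (D ∪ Z) hDZ
    have h6 : (pole x d (D.erase d)).card + ins B Z ≤ ins (pole x d (D.erase d) ∪ B) (D ∪ Z) := by
      unfold ins
      rw [← Finset.card_union_of_disjoint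
        (h3.mono_right (Finset.filter_subset _ _))]
      apply Finset.card_le_card
      intro q hq
      rcases Finset.mem_union.1 hq with h | h
      · refine Finset.mem_filter.2 ⟨Finset.mem_union_left _ h, ?_⟩
        exact ((pole_pair hxd hx' hd' h).2.trans (hU ▸ subset_rfl)).trans hxU
      · obtain ⟨h7, h8⟩ := Finset.mem_filter.1 h
        exact Finset.mem_filter.2 ⟨Finset.mem_union_right _ h7,
          h8.trans Finset.subset_union_right⟩
    omega

end LA

end Pool.Agent.V11304.RP
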