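import Mathlib
import Pool.Agent.V11304.RP.Rigid

/-!
The key inequality: for a (3,6)-sparse graph with an edge `xy` and a set `Y` of other edges,
`2 |Y| + 1 ≤ 2 r(Y / xy) + r(Y + xy)` with `r` the rank of the planar rigidity matroid.
-/

set_option autoImplicit false
set_option linter.unusedSectionVars false
set_option linter.unusedVariables false
set_option linter.unusedSimpArgs false

namespace Pool.Agent.V11304.RP

open Pool.Agent.H598R2.Cnt

section Contr

variable {V : Type} [DecidableEq V]

/-- contraction of `y` onto `x` on vertices -/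
def pi (x y : V) (v : V) : V := if v = y then x else v

/-- contraction of `y` onto `x` on pairs -/
def cc (x y : V) (f : Finset V) : Finset V := f.image (pi x y)

variable {x y : V}

theorem pi_y : pi x y y = x := by simp [pi]

theorem pi_of_ne {v : V} (h : v ≠ y) : pi x y v = v := by simp [pi, h]

theorem pi_image_of_notMem {X : Finset V} (hy : y ∉ X) : X.image (pi x y) = X := by
  ext v
  simp only [Finset.mem_image]
  constructor
  · rintro ⟨w, hw, rfl⟩
    rw [pi_of_ne (v := w) (y := y) (fun h => hy (h ▸ hw))]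
    exact hw
  · intro hv
    exact ⟨v, hv, pi_of_ne (fun h => hy (h ▸ hv))⟩

theorem pi_image_of_mem {X : Finset V} (hy : y ∈ X) :
    X.image (pi x y) = insert x (X.erase y) := by
  ext v
  simp only [Finset.mem_image, Finset.mem_insert, Finset.mem_erase]
  constructor
  · rintro ⟨w, hw, rfl⟩
    by_cases h : w = y
    · subst h
      exact Or.inl pi_y
    · rw [pi_of_ne h]
      exact Or.inr ⟨h, hw⟩
  · rintro (rfl | ⟨h1, h2⟩)
    · exact ⟨y, hy, pi_y⟩
    · exact ⟨v, h2, pi_of_ne h1⟩

theorem cc_pair (a b : V) : cc x y {a, b} = {pi x y a, pi x y b} := by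
  unfold cc
  rw [Finset.image_insert, Finset.image_singleton]

theorem cc_card (hxy : x ≠ y) {f : Finset V} (hf : f.card = 2) (hne : f ≠ {x, y}) :
    (cc x y f).card = 2 := by
  obtain ⟨a, b, hab, rfl⟩ := Finset.card_eq_two.1 hf
  rw [cc_pair, Finset.card_pair]
  by_cases ha : a = y
  · subst ha
    rw [pi_y, pi_of_ne hab.symm]
    rintro rfl
    exact hne (Finset.pair_comm _ _)
  · by_cases hb : b = y
    · subst hb
      rw [pi_y, pi_of_ne hab]
      rintro rfl
      exact hne rfl
    · rw [pi_of_ne ha, pi_of_ne hb]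
      exact hab

theorem notMem_cc (hxy : x ≠ y) (f : Finset V) : y ∉ cc x y f := by
  unfold cc
  rw [Finset.mem_image]
  rintro ⟨v, hv, h⟩
  by_cases hvy : v = y
  · subst hvy
    rw [pi_y] at h
    exact hxy h
  · rw [pi_of_ne hvy] at h
    exact hvy h

theorem sub_insert_of_cc {f X : Finset V} (h : cc x y f ⊆ X) : f ⊆ insert y X := by
  intro v hv
  by_cases hvy : v = y
  · rw [hvy]; exact Finset.mem_insert_self _ _
  · refine Finset.mem_insert_of_mem (h ?_)
    rw [← pi_of_ne (x := x) hvy]
    exact Finset.mem_image_of_mem _ hv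

theorem sub_of_cc {f X : Finset V} (h : cc x y f ⊆ X) (hx : x ∉ X) : f ⊆ X := by
  intro v hv
  by_cases hvy : v = y
  · subst hvy
    exfalso
    apply hx
    apply h
    have h1 : pi x v v ∈ cc x v f := Finset.mem_image_of_mem _ hv
    rw [pi_y] at h1
    exact h1
  · apply h
    rw [← pi_of_ne (x := x) hvy]
    exact Finset.mem_image_of_mem _ hv

theorem cc_sub {f X : Finset V} (h : f ⊆ X) : cc x y f ⊆ X.image (pi x y) :=
  Finset.image_subset_image h

theorem ins_cc_le {B : Finset (Finset V)} (hinj : Set.InjOn (cc x y) (B : Set (Finset V)))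
    (X : Finset V) : ins B X ≤ ins (B.image (cc x y)) (X.image (pi x y)) := by
  unfold ins
  rw [← Finset.card_image_of_injOn (s := B.filter (· ⊆ X)) (f := cc x y)
    (hinj.mono (by exact_mod_cast Finset.filter_subset _ _))]
  apply Finset.card_le_card
  intro q hq
  obtain ⟨f, hf, rfl⟩ := Finset.mem_image.1 hq
  obtain ⟨h1, h2⟩ := Finset.mem_filter.1 hf
  exact Finset.mem_filter.2 ⟨Finset.mem_image_of_mem _ h1, cc_sub h2⟩

theorem sp_lift (hxy : x ≠ y) {D : Finset V} (hx : x ∉ D) (hy : y ∉ D)
    {B : Finset (Finset V)} (hinj : Set.InjOn (cc x y) (B : Set (Finset V)))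
    (h1 : Sp (B.image (cc x y)))
    (h2 : ∀ Z : Finset V, x ∈ Z →
      ins (B.image (cc x y)) Z + 2 * (D ∩ Z).card + 2 ≤ 2 * Z.card) :
    Sp (pole x y D ∪ B) := by
  intro X hX
  have hB := ins_cc_le hinj X
  have hu := ins_union_le (pole x y D) B X
  by_cases hyX : y ∈ X
  · rw [pi_image_of_mem hyX] at hB
    have hDi : D ∩ insert x (X.erase y) = D ∩ X := by
      ext w
      simp only [Finset.mem_inter, Finset.mem_insert, Finset.mem_erase]
      constructor
      · rintro ⟨a1, rfl | ⟨a2, a3⟩⟩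
        · exact absurd a1 hx
        · exact ⟨a1, a3⟩
      · rintro ⟨a1, a2⟩
        exact ⟨a1, Or.inr ⟨fun h => hy (h ▸ a1), a2⟩⟩
    have h3 := h2 (insert x (X.erase y)) (Finset.mem_insert_self _ _)
    rw [hDi] at h3
    have h4 := Finset.card_erase_add_one hyX
    by_cases hxX : x ∈ X
    · rw [Finset.insert_eq_of_mem (Finset.mem_erase.2 ⟨hxy, hxX⟩)] at h3 hB
      have h5 := pole_both (x := x) (y := y) (D := D) (X := X)
      omega
    · rw [Finset.card_insert_of_notMem (fun h => hxX (Finset.mem_of_mem_erase h))] at h3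
      have h5 := pole_right (y := y) (D := D) hxX
      have h6 := h1 (insert x (X.erase y)) (by
        rw [Finset.card_insert_of_notMem (fun h => hxX (Finset.mem_of_mem_erase h))]
        omega)
      rw [Finset.card_insert_of_notMem (fun h => hxX (Finset.mem_of_mem_erase h))] at h6
      omega
  · rw [pi_image_of_notMem hyX] at hB
    have h6 := h1 X hX
    by_cases hxX : x ∈ X
    · have h3 := h2 X hxX
      have h5 := pole_left (x := x) (D := D) hyX
      omega
    · have h5 := pole_none (D := D) hxX hyX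
      omega

end Contr

section Key

variable {V : Type} [Fintype V] [DecidableEq V]

theorem key {E : Finset (Finset V)} (hP : Pairs E)
    (hE : ∀ X : Finset V, 3 ≤ X.card → ins E X + 6 ≤ 3 * X.card)
    {x y : V} (hxy : x ≠ y) (hxyE : ({x, y} : Finset V) ∈ E) {Y : Finset (Finset V)}
    (hY : Y ⊆ E.erase {x, y}) :
    ∃ I ⊆ Y.image (cc x y), Sp I ∧ ∃ K ⊆ insert {x, y} Y, Sp K ∧
      2 * Y.card + 1 ≤ 2 * I.card + K.card := by
  classical
  have hYE : Y ⊆ E := hY.trans (Finset.erase_subset _ _)
  have hYne : ∀ f ∈ Y, f ≠ {x, y} := fun f hf => (Finset.mem_erase.1 (hY hf)).1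
  have hPΓ : Pairs (Y.image (cc x y)) := by
    intro q hq
    obtain ⟨f, hf, rfl⟩ := Finset.mem_image.1 hq
    exact cc_card hxy (hP f (hYE hf)) (hYne f hf)
  have hPK : Pairs (insert {x, y} Y) := by
    intro q hq
    rcases Finset.mem_insert.1 hq with rfl | hq
    · exact Finset.card_pair hxy
    · exact hP q (hYE hq)
  obtain ⟨I, -, hI⟩ := exists_maxl (Finset.empty_subset (Y.image (cc x y))) sp_empty
  obtain ⟨φ, F, h⟩ := exists_fam hI hPΓ
  have hyF : ∀ X ∈ F, y ∉ X := by
    intro X hX
    refine h.notMem ?_ hX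
    intro q hq
    obtain ⟨f, hf, rfl⟩ := Finset.mem_image.1 hq
    exact notMem_cc hxy f
  -- counts
  let N : Finset V → ℕ := fun X => (Y.filter (fun f => cc x y f ⊆ X)).card
  have hYsum : Y.card = ∑ X ∈ F, N X := by
    rw [Finset.card_eq_sum_card_fiberwise (f := fun f => φ (cc x y f)) (t := F)
      (fun f hf => (h.mem _ (Finset.mem_image_of_mem _ hf)).1)]
    refine Finset.sum_congr rfl fun X hX => ?_
    show _ = (Y.filter (fun f => cc x y f ⊆ X)).card
    congr 1
    ext f
    simp only [Finset.mem_filter]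
    constructor
    · rintro ⟨h1, rfl⟩
      exact ⟨h1, (h.mem _ (Finset.mem_image_of_mem _ h1)).2⟩
    · rintro ⟨h1, h2⟩
      exact ⟨h1, h.uniq X hX _ (Finset.mem_image_of_mem _ h1) h2⟩
  have hIsum := h.sum_ins hI.1
  have hN0 : ∀ X ∈ F, x ∉ X → 3 ≤ X.card → N X + 6 ≤ 3 * X.card := by
    intro X hX hx h3
    refine le_trans (Nat.add_le_add_right ?_ 6) (hE X h3)
    apply Finset.card_le_card
    intro f hf
    obtain ⟨h1, h2⟩ := Finset.mem_filter.1 hf
    exact Finset.mem_filter.2 ⟨hYE h1, sub_of_cc h2 hx⟩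
  have hN0' : ∀ X ∈ F, x ∉ X → X.card = 2 → N X ≤ 1 := by
    intro X hX hx hX2
    refine Finset.card_le_one.2 ?_
    intro f hf g hg
    obtain ⟨h1, h2⟩ := Finset.mem_filter.1 hf
    obtain ⟨h3, h4⟩ := Finset.mem_filter.1 hg
    have a1 := hP f (hYE h1)
    have a2 := hP g (hYE h3)
    rw [Finset.eq_of_subset_of_card_le (sub_of_cc h2 hx) (by omega),
      Finset.eq_of_subset_of_card_le (sub_of_cc h4 hx) (by omega)]
  -- the set of edges over `X`, with the edge `xy`
  have hDX : ∀ X ∈ F, x ∈ X →
      (insert {x, y} (Y.filter (fun f => cc x y f ⊆ X))).card = N X + 1 ∧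
      insert {x, y} (Y.filter (fun f => cc x y f ⊆ X)) ⊆ E ∧
      ∀ q ∈ insert {x, y} (Y.filter (fun f => cc x y f ⊆ X)), q ⊆ insert y X := by
    intro X hX hx
    refine ⟨?_, ?_, ?_⟩
    · rw [Finset.card_insert_of_notMem]
      intro hh
      exact hYne _ (Finset.mem_filter.1 hh).1 rfl
    · exact Finset.insert_subset hxyE ((Finset.filter_subset _ _).trans hYE)
    · intro q hq
      rcases Finset.mem_insert.1 hq with rfl | hq
      · intro w hw
        simp only [Finset.mem_insert, Finset.mem_singleton] at hw ⊢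
        rcases hw with rfl | rfl
        · exact Or.inr hx
        · exact Or.inl rfl
      · exact sub_insert_of_cc (Finset.mem_filter.1 hq).2
  have hN1 : ∀ X ∈ F, x ∈ X → N X + 4 ≤ 3 * X.card := by
    intro X hX hx
    obtain ⟨h1, h2, h3⟩ := hDX X hX hx
    have h4 := Finset.card_insert_of_notMem (hyF X hX)
    have h5 := h.two_le hX
    have h6 := hE (insert y X) (by omega)
    have h7 : N X + 1 ≤ ins E (insert y X) := by
      rw [← h1]
      apply Finset.card_le_card
      intro q hq
      exact Finset.mem_filter.2 ⟨h2 hq, h3 q hq⟩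
    omega
  -- the three classes
  let J1 := F.filter (fun X => x ∈ X ∧ 3 * X.card ≤ N X + 4)
  let J2 := F.filter (fun X => x ∈ X ∧ ¬ 3 * X.card ≤ N X + 4)
  let J3 := F.filter (fun X => x ∉ X ∧ 3 ≤ X.card)
  let D := J1.biUnion (fun X => X.erase x)
  let R := I.filter (fun q => φ q ∈ J2 ∪ J3)
  let A := D.filter (fun v => ∃ q ∈ R, v ∈ q)
  have mJ1 : ∀ {X}, X ∈ J1 ↔ X ∈ F ∧ x ∈ X ∧ 3 * X.card ≤ N X + 4 := by
    intro X; exact Finset.mem_filter
  have mJ2 : ∀ {X}, X ∈ J2 ↔ X ∈ F ∧ x ∈ X ∧ ¬ 3 * X.card ≤ N X + 4 := by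
    intro X; exact Finset.mem_filter
  have mJ3 : ∀ {X}, X ∈ J3 ↔ X ∈ F ∧ x ∉ X ∧ 3 ≤ X.card := by
    intro X; exact Finset.mem_filter
  have mD : ∀ {v}, v ∈ D ↔ ∃ X ∈ J1, v ≠ x ∧ v ∈ X := by
    intro v
    simp only [D, Finset.mem_biUnion, Finset.mem_erase]
  have hxD : x ∉ D := by
    rw [mD]
    rintro ⟨X, -, h1, -⟩
    exact h1 rfl
  have hyD : y ∉ D := by
    rw [mD]
    rintro ⟨X, h1, -, h2⟩
    exact hyF X (mJ1.1 h1).1 h2
  have hDc : D.card + J1.card = ∑ X ∈ J1, X.card := by
    have h1 : D.card = ∑ X ∈ J1, (X.erase x).card := by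
      apply Finset.card_biUnion
      intro X hX Z hZ hne
      show Disjoint (X.erase x) (Z.erase x)
      rw [Finset.disjoint_left]
      intro a ha ha'
      obtain ⟨a1, a2⟩ := Finset.mem_erase.1 ha
      obtain ⟨a3, a4⟩ := Finset.mem_erase.1 ha'
      exact hne (h.inter_unique (mJ1.1 hX).1 (mJ1.1 hZ).1 a2 a4 (mJ1.1 hX).2.1 (mJ1.1 hZ).2.1 a1)
    rw [h1, Finset.card_eq_sum_ones, ← Finset.sum_add_distrib]
    exact Finset.sum_congr rfl fun X hX => Finset.card_erase_add_one (mJ1.1 hX).2.1
  have hRI : R ⊆ I := Finset.filter_subset _ _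
  have hRc : R.card = ∑ X ∈ J2 ∪ J3, ins I X := by
    rw [Finset.card_eq_sum_card_fiberwise (f := φ) (s := R) (t := J2 ∪ J3)
      (fun q hq => (Finset.mem_filter.1 (Finset.mem_coe.1 hq)).2)]
    refine Finset.sum_congr rfl fun X hX => ?_
    have hXF : X ∈ F := by
      rcases Finset.mem_union.1 hX with h1 | h1
      · exact (mJ2.1 h1).1
      · exact (mJ3.1 h1).1
    unfold ins
    congr 1
    ext q
    simp only [R, Finset.mem_filter]
    constructor
    · rintro ⟨⟨h1, h2⟩, rfl⟩
      exact ⟨h1, (h.mem q (hI.1 h1)).2⟩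
    · rintro ⟨h1, h2⟩
      have h3 := h.uniq X hXF q (hI.1 h1) h2
      exact ⟨⟨h1, by rw [h3]; exact hX⟩, h3⟩
  -- members of `J2 ∪ J3` meeting `D`
  have hmeet : ∀ q ∈ R, ∀ v ∈ q, v ∈ D → φ q ∈ J3 ∧ v ∈ φ q := by
    intro q hq v hv hvD
    obtain ⟨h1, h2⟩ := Finset.mem_filter.1 hq
    have h3 := (h.mem q (hI.1 h1)).2 hv
    refine ⟨?_, h3⟩
    rcases Finset.mem_union.1 h2 with h4 | h4
    · exfalso
      obtain ⟨X, hX, hvx, hvX⟩ := mD.1 hvD
      have h5 := h.inter_unique (mJ1.1 hX).1 (mJ2.1 h4).1 hvX h3 (mJ1.1 hX).2.1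
        (mJ2.1 h4).2.1 hvx
      have h6 := (mJ2.1 h4).2.2
      rw [← h5] at h6
      exact h6 (mJ1.1 hX).2.2
    · exact h4
  have hAc : A.card ≤ J3.card := by
    have h1 : A ⊆ J3.biUnion (fun W => W ∩ D) := by
      intro v hv
      obtain ⟨h2, q, h3, h4⟩ := Finset.mem_filter.1 hv
      obtain ⟨h5, h6⟩ := hmeet q h3 v h4 h2
      exact Finset.mem_biUnion.2 ⟨φ q, h5, Finset.mem_inter.2 ⟨h6, h2⟩⟩
    refine (Finset.card_le_card h1).trans (Finset.card_biUnion_le.trans ?_)
    rw [Finset.card_eq_sum_ones]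
    refine Finset.sum_le_sum fun W hW => ?_
    rw [Finset.card_le_one]
    intro a ha b hb
    by_contra hab
    obtain ⟨haW, haD⟩ := Finset.mem_inter.1 ha
    obtain ⟨hbW, hbD⟩ := Finset.mem_inter.1 hb
    obtain ⟨X1, hX1, hax, haX1⟩ := mD.1 haD
    obtain ⟨X2, hX2, hbx, hbX2⟩ := mD.1 hbD
    have hxW : x ∉ W := (mJ3.1 hW).2.1
    have hx1 : x ∈ X1 := (mJ1.1 hX1).2.1
    have hx2 : x ∈ X2 := (mJ1.1 hX2).2.1
    rcases h.triangle (mJ3.1 hW).1 (mJ1.1 hX1).1 (mJ1.1 hX2).1 haW haX1 hbW hbX2 hx1 hx2 hab hax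
      hbx with h2 | h2 | h2
    · exact hxW (h2 ▸ hx1)
    · exact hxW (h2 ▸ hx2)
    · subst h2
      have h3 := h.inter_unique (mJ3.1 hW).1 (mJ1.1 hX1).1 haW haX1 hbW hbX2 hab
      exact hxW (h3 ▸ hx1)
  -- the extension
  have hPI : Pairs I := fun q hq => hPΓ q (hI.1 hq)
  obtain ⟨B, hBR, hBc, hBs, hBZ⟩ := exists_ext (I := R) (D := D) (A := A) (x := x)
    (fun q hq => hPI q (hRI hq)) (hI.2.1.mono hRI) hxD
    (fun q hq v hv hvD => Finset.mem_filter.2 ⟨hvD, q, hq, hv⟩)
  have hg : ∀ q : Finset V, ∃ f, q ∈ B → (f ∈ Y ∧ cc x y f = q) := by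
    intro q
    by_cases hq : q ∈ B
    · obtain ⟨f, hf, hfq⟩ := Finset.mem_image.1 (hI.1 (hRI (hBR hq)))
      exact ⟨f, fun _ => ⟨hf, hfq⟩⟩
    · exact ⟨∅, fun hh => absurd hh hq⟩
  choose g hg using hg
  have hgimg : (B.image g).image (cc x y) = B := by
    ext q
    simp only [Finset.mem_image]
    constructor
    · rintro ⟨_, ⟨q', hq', rfl⟩, rfl⟩
      rw [(hg q' hq').2]
      exact hq'
    · intro hq
      exact ⟨g q, ⟨q, hq, rfl⟩, (hg q hq).2⟩
  have hginj : Set.InjOn g (B : Set (Finset V)) := by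
    intro q hq q' hq' he
    rw [← (hg q hq).2, ← (hg q' hq').2, he]
  have hccinj : Set.InjOn (cc x y) ((B.image g : Finset (Finset V)) : Set (Finset V)) := by
    intro f hf f' hf' he
    obtain ⟨q, hq, rfl⟩ := Finset.mem_image.1 (Finset.mem_coe.1 hf)
    obtain ⟨q', hq', rfl⟩ := Finset.mem_image.1 (Finset.mem_coe.1 hf')
    rw [(hg q hq).2, (hg q' hq').2] at he
    rw [he]
  have hdisj : Disjoint (pole x y D) (B.image g) := by
    rw [Finset.disjoint_left]
    intro f hf hf'
    obtain ⟨q, hq, rfl⟩ := Finset.mem_image.1 hf'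
    obtain ⟨hgY, hgq⟩ := hg q hq
    have hcase : ∀ v ∈ D, q = {v, x} → False := by
      intro v hv hqv
      have h1 := hmeet q (hBR hq) v (by rw [hqv]; simp) hv
      have h2 := (h.mem q (hI.1 (hRI (hBR hq)))).2 (show x ∈ q by rw [hqv]; simp)
      exact (mJ3.1 h1.1).2.1 h2
    rcases mem_pole.1 hf with h1 | ⟨v, hv, h1⟩ | ⟨v, hv, h1⟩
    · exact hYne _ hgY h1
    · apply hcase v hv
      rw [← hgq, h1, cc_pair, pi_of_ne (v := v) (y := y) (fun hh => hyD (hh ▸ hv)), pi_of_ne hxy]
    · apply hcase v hv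
      rw [← hgq, h1, cc_pair, pi_of_ne (v := v) (y := y) (fun hh => hyD (hh ▸ hv)), pi_y]
  have hsp : Sp (pole x y D ∪ B.image g) :=
    sp_lift hxy hxD hyD hccinj (by rw [hgimg]; exact hBs) (by rw [hgimg]; exact hBZ)
  -- rigidity of `insert y (insert x D)`
  have hrig : ∀ S ⊆ J1, Rig (insert {x, y} Y)
      (insert y (insert x (S.biUnion (fun X => X.erase x)))) := by
    intro S
    induction S using Finset.induction_on with
    | empty =>
      intro _
      refine ⟨{{x, y}}, by simp, ?_, ?_, ?_⟩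
      · have h1 := sp_pole (D := (∅ : Finset V)) hxy (Finset.notMem_empty _)
          (Finset.notMem_empty _)
        exact h1.mono (by simp [pole])
      · intro p hp
        rw [Finset.mem_singleton] at hp
        subst hp
        intro w hw
        simp only [Finset.mem_insert, Finset.mem_singleton] at hw ⊢
        tauto
      · rw [Finset.biUnion_empty, Finset.card_singleton]
        have : (insert y (insert x (∅ : Finset V))) = {y, x} := rfl
        rw [this, Finset.card_pair hxy.symm]
    | insert X S hXS ih =>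
      intro hS
      have hXJ := hS (Finset.mem_insert_self _ _)
      have hSJ := (Finset.subset_insert X S).trans hS
      have h1 := ih hSJ
      have hXm := mJ1.1 hXJ
      obtain ⟨d1, d2, d3⟩ := hDX X hXm.1 hXm.2.1
      have h4 := Finset.card_insert_of_notMem (hyF X hXm.1)
      have h5 := h.two_le hXm.1
      have h2 : Rig (insert {x, y} Y) (insert y X) := by
        refine Rig.mono (rig_of_tight36 (fun q hq => hP q (d2 hq)) d3 ?_ ?_ (by omega))
          (Finset.insert_subset_insert _ (Finset.filter_subset _ _))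
        · intro Z hZ
          exact le_trans (Nat.add_le_add_right (ins_mono d2 Z) 6) (hE Z hZ)
        · rw [d1]
          have := hXm.2.2
          omega
      have h3 := glue hPK h1 h2 hxy (by simp) (by simp) (Finset.mem_insert_of_mem hXm.2.1)
        (by simp)
      have he : insert y (insert x (S.biUnion (fun X => X.erase x))) ∪ insert y X =
          insert y (insert x ((insert X S).biUnion (fun X => X.erase x))) := by
        rw [Finset.biUnion_insert]
        ext w
        simp only [Finset.mem_union, Finset.mem_insert, Finset.mem_erase]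
        constructor
        · rintro ((rfl | rfl | h6) | rfl | h6)
          · exact Or.inl rfl
          · exact Or.inr (Or.inl rfl)
          · exact Or.inr (Or.inr (Or.inr h6))
          · exact Or.inl rfl
          · by_cases hwx : w = x
            · exact Or.inr (Or.inl hwx)
            · exact Or.inr (Or.inr (Or.inl ⟨hwx, h6⟩))
        · rintro (rfl | rfl | ⟨h6, h7⟩ | h6)
          · exact Or.inl (Or.inl rfl)
          · exact Or.inl (Or.inr (Or.inl rfl))
          · exact Or.inr (Or.inr h7)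
          · exact Or.inl (Or.inr (Or.inr h6))
      rw [← he]
      exact h3
  obtain ⟨K, hK, hKs, hKc⟩ := exists_ge_of_rig hPK (hrig J1 subset_rfl) (by
      rw [← Finset.card_pair hxy]
      apply Finset.card_le_card
      intro w hw
      simp only [Finset.mem_insert, Finset.mem_singleton] at hw ⊢
      tauto) hsp (by
      intro q hq
      rcases Finset.mem_union.1 hq with hq | hq
      · exact Or.inr (pole_pair hxy hxD hyD hq)
      · obtain ⟨q', hq', rfl⟩ := Finset.mem_image.1 hq
        exact Or.inl (Finset.mem_insert_of_mem (hg q' hq').1))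
  refine ⟨I, hI.1, hI.2.1, K, hK, hKs, ?_⟩
  rw [Finset.card_union_of_disjoint hdisj, Finset.card_image_of_injOn hginj,
    pole_card hxy hxD hyD] at hKc
  -- the final count
  have hfin : 2 * Y.card + 2 * J3.card + 2 * J1.card ≤
      2 * I.card + 2 * (D.card + J1.card) + R.card := by
    rw [hYsum, hIsum, hDc, hRc, ← Finset.filter_or, Finset.card_filter, Finset.card_filter,
      Finset.sum_filter, Finset.sum_filter, Finset.mul_sum, Finset.mul_sum, Finset.mul_sum,
      Finset.mul_sum, Finset.mul_sum, ← Finset.sum_add_distrib, ← Finset.sum_add_distrib,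
      ← Finset.sum_add_distrib, ← Finset.sum_add_distrib]
    refine Finset.sum_le_sum fun X hX => ?_
    have h1 := h.ins_eq hX
    have h2 := h.two_le hX
    by_cases hx : x ∈ X
    · have h3 := hN1 X hX hx
      by_cases h4 : 3 * X.card ≤ N X + 4
      · simp only [hx, h4, not_true_eq_false, and_true, true_and, false_and, if_true, if_false,
          and_false, or_false, and_self]
        omega
      · simp only [hx, h4, not_true_eq_false, and_true, true_and, false_and, if_true, if_false,
          and_false, or_false, not_false_eq_true]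
        omega
    · by_cases h4 : 3 ≤ X.card
      · have h3 := hN0 X hX hx h4
        simp only [hx, h4, not_false_eq_true, and_true, true_and, false_and, if_true, if_false,
          and_false, or_true]
        omega
      · have h3 := hN0' X hX hx (by omega)
        simp only [hx, h4, not_false_eq_true, and_true, true_and, false_and, if_true, if_false,
          and_false, or_false]
        omega
  omega

end Key

end Pool.Agent.V11304.RP
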