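import Mathlib
import Pool.Agent.V11304.RP.Ineq
import Pool.Agent.W133.LinAlg

/-!
Partition of the ground set into three sets with spanning complements, from matroid intersection;
application to the planar rigidity matroid.
-/

set_option autoImplicit false
set_option linter.unusedSectionVars false
set_option linter.unusedVariables false

namespace Pool.Agent.V11304.RP

open Pool.Agent.H598R2.Cnt Pool.Agent.H478R3.Borsuk Pool.Agent.W133

section Abstract

variable {α : Type} [DecidableEq α]

theorem card_isRF : IsRF (fun X : Finset α => X.card) where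
  empty := Finset.card_empty
  mono := fun A B h => Finset.card_le_card h
  ins := fun e A => Finset.card_insert_le e A
  sub := fun A B => (Finset.card_union_add_card_inter A B).le

theorem dual_bound {r : Finset α → ℕ} (h : IsRF r) (E X : Finset α) :
    r E ≤ (X ∩ E).card + r (E \ X) := by
  have h1 := rf_union_card h (E \ X) (X ∩ E)
  have h2 : E \ X ∪ X ∩ E = E := by
    ext w
    simp only [Finset.mem_union, Finset.mem_sdiff, Finset.mem_inter]
    tauto
  rw [h2] at h1
  omega

theorem dual_isRF {r : Finset α → ℕ} (h : IsRF r) (E : Finset α) :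
    IsRF (fun X => (X ∩ E).card + r (E \ X) - r E) where
  empty := by simp
  mono := by
    intro A B hAB
    show (A ∩ E).card + r (E \ A) - r E ≤ (B ∩ E).card + r (E \ B) - r E
    have h1 := rf_union_card h (E \ B) ((B \ A) ∩ E)
    have h2 : E \ A = E \ B ∪ (B \ A) ∩ E := by
      ext w
      simp only [Finset.mem_union, Finset.mem_sdiff, Finset.mem_inter]
      constructor
      · rintro ⟨h3, h4⟩
        by_cases h5 : w ∈ B
        · exact Or.inr ⟨⟨h5, h4⟩, h3⟩
        · exact Or.inl ⟨h3, h5⟩
      · rintro (⟨h3, h4⟩ | ⟨⟨h3, h4⟩, h5⟩)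
        · exact ⟨h3, fun h5 => h4 (hAB h5)⟩
        · exact ⟨h5, h4⟩
    rw [← h2] at h1
    have h3 : (A ∩ E).card + ((B \ A) ∩ E).card = (B ∩ E).card := by
      rw [← Finset.card_union_of_disjoint]
      · congr 1
        ext w
        simp only [Finset.mem_union, Finset.mem_sdiff, Finset.mem_inter]
        constructor
        · rintro (⟨h3, h4⟩ | ⟨⟨h3, h4⟩, h5⟩)
          · exact ⟨hAB h3, h4⟩
          · exact ⟨h3, h5⟩
        · rintro ⟨h3, h4⟩
          by_cases h5 : w ∈ A
          · exact Or.inl ⟨h5, h4⟩
          · exact Or.inr ⟨⟨h3, h5⟩, h4⟩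
      · rw [Finset.disjoint_left]
        intro w hw hw'
        simp only [Finset.mem_sdiff, Finset.mem_inter] at hw hw'
        exact hw'.1.2 hw.1
    omega
  ins := by
    intro e A
    show (insert e A ∩ E).card + r (E \ insert e A) - r E ≤ (A ∩ E).card + r (E \ A) - r E + 1
    have h1 : (insert e A ∩ E).card ≤ (A ∩ E).card + 1 := by
      refine le_trans (Finset.card_le_card ?_) (Finset.card_insert_le e (A ∩ E))
      intro w hw
      simp only [Finset.mem_insert, Finset.mem_inter] at hw ⊢
      tauto
    have h2 := h.mono (E \ insert e A) (E \ A)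
      (Finset.sdiff_subset_sdiff subset_rfl (Finset.subset_insert _ _))
    omega
  sub := by
    intro A B
    show ((A ∪ B) ∩ E).card + r (E \ (A ∪ B)) - r E + (((A ∩ B) ∩ E).card + r (E \ (A ∩ B)) - r E) ≤
      (A ∩ E).card + r (E \ A) - r E + ((B ∩ E).card + r (E \ B) - r E)
    have h1 := dual_bound h E A
    have h2 := dual_bound h E B
    have h3 := dual_bound h E (A ∪ B)
    have h4 := dual_bound h E (A ∩ B)
    have h5 := h.sub (E \ A) (E \ B)
    have e1 : E \ A ∪ E \ B = E \ (A ∩ B) := by
      ext w
      simp only [Finset.mem_union, Finset.mem_sdiff, Finset.mem_inter]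
      tauto
    have e2 : E \ A ∩ (E \ B) = E \ (A ∪ B) := by
      ext w
      simp only [Finset.mem_union, Finset.mem_sdiff, Finset.mem_inter]
      tauto
    rw [e1, e2] at h5
    have h6 := Finset.card_union_add_card_inter (A ∩ E) (B ∩ E)
    have e3 : A ∩ E ∪ B ∩ E = (A ∪ B) ∩ E := by
      ext w
      simp only [Finset.mem_union, Finset.mem_inter]
      tauto
    have e4 : A ∩ E ∩ (B ∩ E) = A ∩ B ∩ E := by
      ext w
      simp only [Finset.mem_inter]
      tauto
    rw [e3, e4] at h6
    omega

/-- the slice of `X` over `i` -/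
def fib (X : Finset (α × Fin 3)) (i : Fin 3) : Finset α :=
  (X.filter (fun a => a.2 = i)).image Prod.fst

theorem mem_fib {X : Finset (α × Fin 3)} {i : Fin 3} {a : α} : a ∈ fib X i ↔ (a, i) ∈ X := by
  unfold fib
  simp only [Finset.mem_image, Finset.mem_filter, Prod.exists]
  constructor
  · rintro ⟨b, j, ⟨h1, rfl⟩, rfl⟩
    exact h1
  · intro h
    exact ⟨a, i, ⟨h, rfl⟩, rfl⟩

theorem prod_isRF {r : Fin 3 → Finset α → ℕ} (h : ∀ i, IsRF (r i)) :
    IsRF (fun X : Finset (α × Fin 3) => ∑ i, r i (fib X i)) where
  empty := by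
    refine Finset.sum_eq_zero fun i _ => ?_
    have : fib (∅ : Finset (α × Fin 3)) i = ∅ := by
      ext a
      rw [mem_fib]
      simp
    rw [this, (h i).empty]
  mono := by
    intro A B hAB
    refine Finset.sum_le_sum fun i _ => (h i).mono _ _ ?_
    intro a ha
    rw [mem_fib] at ha ⊢
    exact hAB ha
  ins := by
    rintro ⟨e, j⟩ A
    calc ∑ i, r i (fib (insert (e, j) A) i) ≤ ∑ i, (r i (fib A i) + if i = j then 1 else 0) := by
          refine Finset.sum_le_sum fun i _ => ?_
          by_cases hij : i = j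
          · subst hij
            rw [if_pos rfl]
            refine le_trans ((h i).mono _ (insert e (fib A i)) ?_) ((h i).ins _ _)
            intro a ha
            rw [mem_fib, Finset.mem_insert] at ha
            rcases ha with ha | ha
            · rw [(Prod.mk.inj ha).1]
              exact Finset.mem_insert_self _ _
            · exact Finset.mem_insert_of_mem (mem_fib.2 ha)
          · rw [if_neg hij, add_zero]
            refine (h i).mono _ _ ?_
            intro a ha
            rw [mem_fib, Finset.mem_insert] at ha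
            rcases ha with ha | ha
            · exact absurd (Prod.mk.inj ha).2 hij
            · exact mem_fib.2 ha
      _ ≤ _ := by
          rw [Finset.sum_add_distrib, Finset.sum_ite_eq' Finset.univ j, if_pos (Finset.mem_univ _)]
  sub := by
    intro A B
    rw [← Finset.sum_add_distrib, ← Finset.sum_add_distrib]
    refine Finset.sum_le_sum fun i _ => ?_
    have e1 : fib (A ∪ B) i = fib A i ∪ fib B i := by
      ext a
      simp only [mem_fib, Finset.mem_union]
    have e2 : fib (A ∩ B) i = fib A i ∩ fib B i := by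
      ext a
      simp only [mem_fib, Finset.mem_inter]
    rw [e1, e2]
    exact (h i).sub _ _

/-- **Partition theorem**: three spanning complements -/
theorem partition3 (E : Finset α) {r : Fin 3 → Finset α → ℕ} (h : ∀ i, IsRF (r i))
    (hk : ∀ Y ⊆ E, ∑ i, r i E + 2 * Y.card ≤ 2 * E.card + ∑ i, r i Y) :
    ∃ c : α → Fin 3, ∀ i, r i (E.filter (fun a => c a ≠ i)) = r i E := by
  classical
  set ρ : Fin 3 → Finset α → ℕ := fun i X => (X ∩ E).card + r i (E \ X) - r i E with hρ
  have hρF : ∀ i, IsRF (ρ i) := fun i => dual_isRF (h i) E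
  have hfst : IsRF (fun X : Finset (α × Fin 3) => (X.image Prod.fst).card) :=
    IsRF.pull card_isRF Prod.fst
  obtain ⟨I, hI, hI1, hI2, hIk⟩ := inter _ (E ×ˢ (Finset.univ : Finset (Fin 3)))
    (fun X => ∑ i, ρ i (fib X i)) (fun X => (X.image Prod.fst).card) rfl (prod_isRF hρF) hfst
    E.card (by
      intro A hA
      show E.card ≤ ∑ i, ρ i (fib A i) + ((E ×ˢ Finset.univ \ A).image Prod.fst).card
      set Z := E.filter (fun a => ∀ i, (a, i) ∈ A) with hZ
      have hZE : Z ⊆ E := Finset.filter_subset _ _
      have h1 : E \ Z ⊆ (E ×ˢ (Finset.univ : Finset (Fin 3)) \ A).image Prod.fst := by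
        intro a ha
        obtain ⟨h2, h3⟩ := Finset.mem_sdiff.1 ha
        have h4 : ¬ ∀ i, (a, i) ∈ A := fun hh => h3 (Finset.mem_filter.2 ⟨h2, hh⟩)
        push Not at h4
        obtain ⟨i, hi⟩ := h4
        exact Finset.mem_image.2 ⟨(a, i), Finset.mem_sdiff.2
          ⟨Finset.mem_product.2 ⟨h2, Finset.mem_univ _⟩, hi⟩, rfl⟩
      have h2 := Finset.card_le_card h1
      have h3 := Finset.card_sdiff_add_card_eq_card hZE
      have h4 : ∑ i, ρ i Z ≤ ∑ i, ρ i (fib A i) := by
        refine Finset.sum_le_sum fun i _ => (hρF i).mono _ _ ?_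
        intro a ha
        exact mem_fib.2 ((Finset.mem_filter.1 ha).2 i)
      have h5 : ∑ i, ρ i Z + ∑ i, r i E = 3 * Z.card + ∑ i, r i (E \ Z) := by
        rw [← Finset.sum_add_distrib]
        have h6 : ∀ i : Fin 3, ρ i Z + r i E = Z.card + r i (E \ Z) := by
          intro i
          have h7 := dual_bound (h i) E Z
          have h8 : Z ∩ E = Z := Finset.inter_eq_left.2 hZE
          show (Z ∩ E).card + r i (E \ Z) - r i E + r i E = _
          rw [h8] at h7 ⊢
          omega
        rw [Finset.sum_congr rfl (fun i _ => h6 i), Finset.sum_add_distrib, Finset.sum_const,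
          Finset.card_univ, Fintype.card_fin, smul_eq_mul]
      have h6 := hk (E \ Z) Finset.sdiff_subset
      omega)
  -- `I` is the graph of a function
  have hinj : Set.InjOn Prod.fst (I : Set (α × Fin 3)) := Finset.card_image_iff.1 hI2
  have hIE : I.image Prod.fst ⊆ E := by
    intro a ha
    obtain ⟨⟨b, i⟩, hb, rfl⟩ := Finset.mem_image.1 ha
    exact (Finset.mem_product.1 (hI hb)).1
  have hIc : I.card = E.card := by
    have h1 := Finset.card_le_card hIE
    have h2 : (I.image Prod.fst).card = I.card := hI2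
    omega
  have himg : I.image Prod.fst = E := by
    refine Finset.eq_of_subset_of_card_le hIE ?_
    have h2 : (I.image Prod.fst).card = I.card := hI2
    omega
  have hex : ∀ a : α, ∃ i : Fin 3, a ∈ E → (a, i) ∈ I := by
    intro a
    by_cases ha : a ∈ E
    · rw [← himg] at ha
      obtain ⟨⟨b, i⟩, hb, rfl⟩ := Finset.mem_image.1 ha
      exact ⟨i, fun _ => hb⟩
    · exact ⟨0, fun hh => absurd hh ha⟩
  choose c hc using hex
  refine ⟨c, ?_⟩
  have hfib : ∀ i, fib I i = E.filter (fun a => c a = i) := by
    intro i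
    ext a
    rw [mem_fib, Finset.mem_filter]
    constructor
    · intro ha
      have h1 : a ∈ E := hIE (Finset.mem_image.2 ⟨_, ha, rfl⟩)
      refine ⟨h1, ?_⟩
      have h2 := hinj (Finset.mem_coe.2 (hc a h1)) (Finset.mem_coe.2 ha) rfl
      exact (Prod.mk.inj h2).2
    · rintro ⟨h1, rfl⟩
      exact hc a h1
  have hsum : E.card = ∑ i, (E.filter (fun a => c a = i)).card :=
    Finset.card_eq_sum_card_fiberwise (fun a _ => Finset.mem_univ _)
  have hle : ∀ i ∈ (Finset.univ : Finset (Fin 3)), ρ i (E.filter (fun a => c a = i)) ≤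
      (E.filter (fun a => c a = i)).card := fun i _ => rf_card (hρF i) _
  have heq : ∑ i, ρ i (E.filter (fun a => c a = i)) = ∑ i, (E.filter (fun a => c a = i)).card := by
    rw [← hsum, ← hIc, ← hI1]
    exact Finset.sum_congr rfl fun i _ => by rw [hfib i]
  have hall := (Finset.sum_eq_sum_iff_of_le hle).1 heq
  intro i
  have h1 := hall i (Finset.mem_univ _)
  have h2 : E.filter (fun a => c a = i) ∩ E = E.filter (fun a => c a = i) :=
    Finset.inter_eq_left.2 (Finset.filter_subset _ _)
  have h3 : E \ E.filter (fun a => c a = i) = E.filter (fun a => c a ≠ i) := by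
    ext a
    simp only [Finset.mem_sdiff, Finset.mem_filter]
    tauto
  have h4 := dual_bound (h i) E (E.filter (fun a => c a = i))
  have h5 := (h i).mono (E.filter (fun a => c a ≠ i)) E (Finset.filter_subset _ _)
  have h6 : (E.filter (fun a => c a = i) ∩ E).card + r i (E \ E.filter (fun a => c a = i)) - r i E =
    (E.filter (fun a => c a = i)).card := h1
  rw [h2, h3] at h4 h6
  omega

end Abstract

section Rank

open Pool.Agent.H632R2.Laman Module

variable {U M : Type} [DecidableEq U] [AddCommGroup M] [Module ℝ M] [FiniteDimensional ℝ M]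

theorem indep_of_lr {v : U → M} {X : Finset U} (h : lr v X = X.card) :
    LinearIndepOn ℝ v (X : Set U) := by
  show LinearIndependent ℝ (fun a : (X : Set U) => v a)
  rw [linearIndependent_iff_card_eq_finrank_span]
  have h1 : Set.range (fun a : (X : Set U) => v a) = v '' (X : Set U) := by
    ext w
    simp
  show _ = finrank ℝ (Submodule.span ℝ (Set.range (fun a : (X : Set U) => v a)))
  rw [h1]
  show _ = lr v X
  rw [h]
  simp

end Rank

section Coloring

open Pool.Agent.H632R2.Laman Module

variable {V : Type} [Fintype V] [DecidableEq V]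

theorem exists_coloring {E : Finset (Finset V)} (hP : Pairs E)
    (hE : ∀ X : Finset V, 3 ≤ X.card → ins E X + 6 ≤ 3 * X.card)
    (hEc : E.card + 6 = 3 * Fintype.card V) {x y : V} (hxy : x ≠ y)
    (hxyE : ({x, y} : Finset V) ∈ E) :
    ∃ c : Finset V → Fin 3,
      (∀ i : Fin 3, i ≠ 2 →
        Set.InjOn (cc x y) (((E.erase {x, y}).filter (fun f => c f ≠ i) : Finset (Finset V)) :
          Set (Finset V)) ∧
        Sp (((E.erase {x, y}).filter (fun f => c f ≠ i)).image (cc x y)) ∧
        ((E.erase {x, y}).filter (fun f => c f ≠ i)).card + 5 = 2 * Fintype.card V) ∧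
      Sp (insert {x, y} ((E.erase {x, y}).filter (fun f => c f ≠ 2))) ∧
      ((E.erase {x, y}).filter (fun f => c f ≠ 2)).card + 4 = 2 * Fintype.card V := by
  classical
  obtain ⟨z, hz⟩ := exists_gen V
  set E' := E.erase {x, y} with hE'
  have hE'c : E'.card + 1 = E.card := Finset.card_erase_add_one hxyE
  have hn0 : 2 ≤ Fintype.card V := by
    rw [← Finset.card_pair hxy]
    exact Finset.card_le_univ _
  have hn : 3 ≤ Fintype.card V := by omega
  set v1 : Finset V → V → Fin 2 → ℝ := fun f => rv z (cc x y f) with hv1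
  have hP' : ∀ Y ⊆ E', Pairs (Y.image (cc x y)) := by
    intro Y hY q hq
    obtain ⟨f, hf, rfl⟩ := Finset.mem_image.1 hq
    have h1 := Finset.mem_erase.1 (hY hf)
    exact cc_card hxy (hP f h1.2) h1.1
  have hPe : ∀ Y ⊆ E', Pairs (insert {x, y} Y) := by
    intro Y hY q hq
    rcases Finset.mem_insert.1 hq with rfl | hq
    · exact Finset.card_pair hxy
    · exact hP q (Finset.mem_of_mem_erase (hY hq))
  -- rank functions
  have he1 : lr (rv z) {({x, y} : Finset V)} = 1 := by
    have h1 : Sp ({({x, y} : Finset V)} : Finset (Finset V)) := by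
      have h2 := sp_pole (D := (∅ : Finset V)) hxy (Finset.notMem_empty _)
          (Finset.notMem_empty _)
      exact h2.mono (by simp [pole])
    have h2 : Pairs ({({x, y} : Finset V)} : Finset (Finset V)) := by
      intro q hq
      rw [Finset.mem_singleton] at hq
      rw [hq]
      exact Finset.card_pair hxy
    have h3 := finrank_span_rows (indep_gen_of_sp hz h2 h1)
    rw [Finset.card_singleton] at h3
    exact h3
  let r : Fin 3 → Finset (Finset V) → ℕ := fun i F =>
    if i = 2 then lr (rv z) (insert {x, y} F) - 1 else lr v1 F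
  have r2 : ∀ F, r 2 F = lr (rv z) (insert {x, y} F) - 1 := fun F => rfl
  have r01 : ∀ i : Fin 3, i ≠ 2 → ∀ F, r i F = lr v1 F := fun i hi F => if_neg hi
  have hpos : ∀ F, 1 ≤ lr (rv z) (insert {x, y} F) := fun F => (lr_isRF (rv z)).pos _ he1 F
  have hr : ∀ i, IsRF (r i) := by
    intro i
    by_cases hi : i = 2
    · subst hi
      exact (lr_isRF (rv z)).contract _ he1
    · have : r i = lr v1 := funext (r01 i hi)
      rw [this]
      exact lr_isRF v1
  have hsum3 : ∀ F, ∑ i, r i F = 2 * lr v1 F + (lr (rv z) (insert {x, y} F) - 1) := by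
    intro F
    rw [Fin.sum_univ_three, r01 0 (by decide), r01 1 (by decide), r2]
    ring
  -- independent sets
  have ind1 : ∀ Y ⊆ E', lr v1 Y = Y.card → Set.InjOn (cc x y) (Y : Set (Finset V)) ∧
      Sp (Y.image (cc x y)) := by
    intro Y hY h1
    have h2 := indep_of_lr h1
    have h3 : Set.InjOn (cc x y) (Y : Set (Finset V)) := by
      intro f hf g hg hfg
      exact h2.injOn hf hg (show rv z (cc x y f) = rv z (cc x y g) by rw [hfg])
    refine ⟨h3, sp_of_indep (p := z) (hP' Y hY) ?_⟩
    rw [Finset.coe_image]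
    exact LinearIndepOn.image_of_comp (cc x y) (rv z) h2
  have ind2 : ∀ Y ⊆ E', lr (rv z) (insert {x, y} Y) = (insert {x, y} Y).card →
      Sp (insert {x, y} Y) := fun Y hY h1 => sp_of_indep (hPe Y hY) (indep_of_lr h1)
  -- key inequality in rank form
  have hkey : ∀ Y ⊆ E', 2 * Y.card ≤ ∑ i, r i Y := by
    intro Y hY
    obtain ⟨I, hI, hIs, K, hK, hKs, hc⟩ := key hP hE hxy hxyE hY
    have h1 : I.card ≤ lr v1 Y := by
      rw [← finrank_span_rows (indep_gen_of_sp hz (fun q hq => hP' Y hY q (hI hq)) hIs)]
      apply Submodule.finrank_mono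
      apply Submodule.span_mono
      rintro _ ⟨q, hq, rfl⟩
      obtain ⟨f, hf, rfl⟩ := Finset.mem_image.1 (hI hq)
      exact ⟨f, hf, rfl⟩
    have h2 : K.card ≤ lr (rv z) (insert {x, y} Y) := by
      rw [← finrank_span_rows (indep_gen_of_sp hz (fun q hq => hPe Y hY q (hK hq)) hKs)]
      apply Submodule.finrank_mono
      apply Submodule.span_mono
      exact Set.image_mono (by exact_mod_cast hK)
    rw [hsum3]
    omega
  -- upper bounds
  have hup1 : lr v1 E' + 5 ≤ 2 * Fintype.card V := by
    obtain ⟨B, hB, hB1, hB2⟩ := exists_base (lr_isRF v1) E'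
    obtain ⟨h1, h2⟩ := ind1 B hB hB1
    have hcu : (Finset.univ.erase y).card + 1 = Fintype.card V :=
      Finset.card_erase_add_one (Finset.mem_univ y)
    have h3 := h2 (Finset.univ.erase y) (by omega)
    have h4 : ins (B.image (cc x y)) (Finset.univ.erase y) = B.card := by
      unfold ins
      rw [Finset.filter_true_of_mem, Finset.card_image_of_injOn h1]
      intro q hq w hw
      obtain ⟨f, hf, rfl⟩ := Finset.mem_image.1 hq
      refine Finset.mem_erase.2 ⟨?_, Finset.mem_univ _⟩
      rintro rfl
      exact notMem_cc hxy f hw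
    omega
  have hup2 : lr (rv z) (insert {x, y} E') + 3 ≤ 2 * Fintype.card V := by
    obtain ⟨B, hB, hB1, hB2⟩ := exists_base (lr_isRF (rv z)) (insert {x, y} E')
    have h2 : Sp B := sp_of_indep (fun q hq => hPe E' subset_rfl q (hB hq)) (indep_of_lr hB1)
    have h3 := h2 Finset.univ (by rw [Finset.card_univ]; omega)
    have h4 : ins B Finset.univ = B.card := by
      unfold ins
      rw [Finset.filter_true_of_mem (fun q _ => Finset.subset_univ q)]
    rw [Finset.card_univ] at h3
    omega
  have hEr := hkey E' subset_rfl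
  obtain ⟨c, hc⟩ := partition3 E' hr (by
    intro Y hY
    have h1 := hkey Y hY
    have h2 := hsum3 E'
    have h3 := hpos E'
    omega)
  have hQ : ∀ i, E'.filter (fun f => c f ≠ i) ⊆ E' := fun i => Finset.filter_subset _ _
  have hsumQ : ∑ i, (E'.filter (fun f => c f ≠ i)).card = 2 * E'.card := by
    have h1 : E'.card = ∑ i : Fin 3, (E'.filter (fun f => c f = i)).card :=
      Finset.card_eq_sum_card_fiberwise (fun a _ => Finset.mem_univ _)
    have h2 : ∀ i : Fin 3, (E'.filter (fun f => c f = i)).card +
        (E'.filter (fun f => c f ≠ i)).card = E'.card := fun i =>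
      Finset.card_filter_add_card_filter_not (s := E') (fun f => c f = i)
    have h3 : ∑ i : Fin 3, ((E'.filter (fun f => c f = i)).card +
        (E'.filter (fun f => c f ≠ i)).card) = 3 * E'.card := by
      rw [Finset.sum_congr rfl (fun i _ => h2 i), Finset.sum_const, Finset.card_univ,
        Fintype.card_fin, smul_eq_mul]
    rw [Finset.sum_add_distrib] at h3
    omega
  have hQc : ∀ i, r i E' ≤ (E'.filter (fun f => c f ≠ i)).card := by
    intro i
    rw [← hc i]
    exact rf_card (hr i) _
  rw [Fin.sum_univ_three] at hsumQ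
  have q0 := hQc 0
  have q1 := hQc 1
  have q2 := hQc 2
  have hE3 := hsum3 E'
  rw [r01 0 (by decide)] at q0
  rw [r01 1 (by decide)] at q1
  rw [r2] at q2
  have hp := hpos E'
  refine ⟨c, ?_, ?_, ?_⟩
  · intro i hi
    have hcard : (E'.filter (fun f => c f ≠ i)).card = lr v1 E' := by
      fin_cases i
      · show (E'.filter (fun f => c f ≠ 0)).card = _
        omega
      · show (E'.filter (fun f => c f ≠ 1)).card = _
        omega
      · exact absurd rfl hi
    have h1 := hc i
    rw [r01 i hi, r01 i hi] at h1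
    have h2 := ind1 _ (hQ i) (by rw [h1, hcard])
    refine ⟨h2.1, h2.2, ?_⟩
    omega
  · apply ind2 _ (hQ 2)
    have h1 := hc 2
    rw [r2, r2] at h1
    have h2 := hpos (E'.filter (fun f => c f ≠ 2))
    rw [Finset.card_insert_of_notMem]
    · omega
    · intro hh
      exact (Finset.mem_erase.1 (hQ 2 hh)).1 rfl
  · omega

end Coloring

end Pool.Agent.V11304.RP
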